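import Pool.Agent.Helper30_ASD.SMX3

/-!
# Squad ASD, row SMX: `SL` in terms of the second main theorem
-/

open scoped BigOperators

set_option autoImplicit false

noncomputable section

namespace Pool.Agent.PP.SD.H30

open Pool.Agent.Helper51_AWC Pool.Agent.Helper79_WRA Pool.Agent.PP Pool.Agent.PP.KF
open Pool.Agent.PP.K9 Pool.Agent.PP.K9.H97 Pool.Agent.PP.H75 Pool.Agent.PP.T3 Pool.Agent.PP.SO
open Pool.Agent.PP.SO.H82 (memC conj_of_mem mem_of_conj)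
open Pool.Agent.PP.SO.H59 (C_mono i_mem_C fc_out finsum_mem_ite)

attribute [local instance] Ideal.Quotient.field

/-- the sum for given `x` -/
theorem sum_x {V₀ G : Type} [CommGroup V₀] [Group G] [Finite G] {ℓ : ℕ}
    {M : Ideal (integralClosure ℤ ℂ)} [M.IsMaximal] {E₀ : Subgroup (MulAut V₀)}
    {B : Bk (FF M) V₀ G} [Fact ℓ.Prime] (hM : (ℓ : integralClosure ℤ ℂ) ∈ M)
    (hF : Fq ℓ V₀ E₀) (hB : Sb ℓ M E₀ B) {n m : ℕ} (hPE : PE ℓ n m G) (L : Set (V₀ × V₀ × ℤ))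
    (x : V₀) (χ : G → ℂ) :
    ∑ᶠ w ∈ {w : G × G | ∀ s ∈ L, w.2 * B.i s.2.1 * w.2⁻¹ = B.i s.1 * (w.1 ^ m) ^ s.2.2},
      χ w.1 * fc B (p2 L) x (w.2⁻¹ * w.1 * w.2) =
    (Nat.card (B.C (p2 L ⊔ Subgroup.zpowers x)) : ℂ)⁻¹ * Nat.card (B.C (p2 L)) *
      ∑ᶠ w ∈ TX B L x, gW B (p2 L ⊔ Subgroup.zpowers x) x χ w := by
  classical
  have := Fintype.ofFinite G
  have := Fintype.ofFinite (B.C (p2 L))
  obtain ⟨W', hW'⟩ : ∃ W', W' = p2 L ⊔ Subgroup.zpowers x := ⟨_, rfl⟩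
  have hx' : x ∈ W' := by
    rw [hW']; exact Subgroup.mem_sup_right (Subgroup.mem_zpowers x)
  have hreg : ∀ s : G, bh B W' s ≠ 0 → s ∈ B.C W' ∧ Reg ℓ s := by
    intro s hs
    constructor
    · by_contra h
      exact hs (SO.H10L.bh_supp B W' s h)
    · by_contra h
      exact hs (H82.bh_sing hM hB W' s h)
  have hf2 : ∀ g, fc B (p2 L) x g = (Nat.card (B.C W') : ℂ)⁻¹ *
      ∑ z : B.C (p2 L), bh B W' ((B.i x)⁻¹ * ((z : G)⁻¹ * g * z)) := by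
    intro g
    unfold fc
    rw [finsum_eq_sum_of_fintype, ← hW']
  obtain ⟨K, hK⟩ : ∃ K : ℂ, K = ∑ p : G × G, if p.2 ∈ TX B L x then
    bh B W' p.1 * χ (p.2 * (B.i x * p.1) * p.2⁻¹) else 0 := ⟨_, rfl⟩
  have hsub : ∀ z : B.C (p2 L), (∑ w : G × G,
      if w ∈ {w : G × G | ∀ s ∈ L, w.2 * B.i s.2.1 * w.2⁻¹ = B.i s.1 * (w.1 ^ m) ^ s.2.2} then
        χ w.1 * bh B W' ((B.i x)⁻¹ * ((z : G)⁻¹ * (w.2⁻¹ * w.1 * w.2) * z)) else 0) = K := by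
    intro z
    let e : G × G ≃ G × G :=
      { toFun := fun p => (p.2 * (B.i x * p.1) * p.2⁻¹, p.2 * (z : G)⁻¹)
        invFun := fun p => ((B.i x)⁻¹ * ((z : G)⁻¹ * (p.2⁻¹ * p.1 * p.2) * z), p.2 * z)
        left_inv := fun p => Prod.ext (by dsimp only; group) (by dsimp only; group)
        right_inv := fun p => Prod.ext (by dsimp only; group) (by dsimp only; group) }
    rw [hK, ← e.sum_comp]
    refine Finset.sum_congr rfl fun p _ => ?_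
    have e1 : (e p).1 = p.2 * (B.i x * p.1) * p.2⁻¹ := rfl
    have e2 : (e p).2 = p.2 * (z : G)⁻¹ := rfl
    have e3 : (B.i x)⁻¹ * ((z : G)⁻¹ * ((e p).2⁻¹ * (e p).1 * (e p).2) * z) = p.1 := by
      rw [e1, e2]
      group
    rw [e3]
    by_cases hs : bh B W' p.1 = 0
    · rw [hs, mul_zero, zero_mul, ite_self, ite_self]
    obtain ⟨hsC, hsR⟩ := hreg p.1 hs
    have hp : (B.i x * p.1) ^ m = B.i x := H82.pow_m hF hPE hx' hsC hsR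
    have hc : (e p ∈ {w : G × G | ∀ s ∈ L, w.2 * B.i s.2.1 * w.2⁻¹ =
        B.i s.1 * (w.1 ^ m) ^ s.2.2}) ↔ p.2 ∈ TX B L x := by
      rw [Set.mem_ofPred_eq, e1, e2]
      change _ ↔ ∀ s ∈ L, p.2 * B.i (s.2.1 * (x ^ s.2.2)⁻¹) * p.2⁻¹ = B.i s.1
      refine forall₂_congr fun r hr => ?_
      have h2 : r.2.1 ∈ p2 L := Subgroup.subset_closure ⟨r, hr, rfl⟩
      have h4 := conj_of_mem B ((B.C (p2 L)).inv_mem z.2) h2
      rw [inv_inv] at h4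
      have h5 : p.2 * (z : G)⁻¹ * B.i r.2.1 * (p.2 * (z : G)⁻¹)⁻¹ =
          p.2 * ((z : G)⁻¹ * B.i r.2.1 * z) * p.2⁻¹ := by group
      have h6 : (p.2 * (B.i x * p.1) * p.2⁻¹) ^ m = p.2 * (B.i x * p.1) ^ m * p.2⁻¹ := conj_pow
      rw [h5, h4, h6, hp, conj_zpow, map_mul, map_inv, map_zpow]
      have h7 : p.2 * (B.i r.2.1 * (B.i x ^ r.2.2)⁻¹) * p.2⁻¹ =
          (p.2 * B.i r.2.1 * p.2⁻¹) * (p.2 * B.i x ^ r.2.2 * p.2⁻¹)⁻¹ := by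
        simp only [mul_inv_rev, inv_inv, mul_assoc, inv_mul_cancel_left]
      rw [h7]
      exact mul_inv_eq_iff_eq_mul.symm
    by_cases h : p.2 ∈ TX B L x
    · rw [if_pos (hc.2 h), if_pos h, e1, mul_comm]
    · rw [if_neg (fun h' => h (hc.1 h')), if_neg h]
  have hKval : K = ∑ᶠ w ∈ TX B L x, gW B W' x χ w := by
    rw [hK, Fintype.sum_prod_type_right, finsum_mem_def, finsum_eq_sum_of_fintype]
    refine Finset.sum_congr rfl fun w _ => ?_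
    rw [Set.indicator_apply]
    by_cases h : w ∈ TX B L x
    · simp only [if_pos h]
      unfold gW
      rw [finsum_eq_sum_of_fintype]
    · simp only [if_neg h, Finset.sum_const_zero]
  rw [← hW', ← hKval, finsum_mem_def, finsum_eq_sum_of_fintype]
  have hexp : ∀ w : G × G, Set.indicator {w : G × G | ∀ s ∈ L, w.2 * B.i s.2.1 * w.2⁻¹ =
      B.i s.1 * (w.1 ^ m) ^ s.2.2} (fun w : G × G => χ w.1 *
        fc B (p2 L) x (w.2⁻¹ * w.1 * w.2)) w =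
      (Nat.card (B.C W') : ℂ)⁻¹ * ∑ z : B.C (p2 L),
        if w ∈ {w : G × G | ∀ s ∈ L, w.2 * B.i s.2.1 * w.2⁻¹ = B.i s.1 * (w.1 ^ m) ^ s.2.2} then
        χ w.1 * bh B W' ((B.i x)⁻¹ * ((z : G)⁻¹ * (w.2⁻¹ * w.1 * w.2) * z)) else 0 := by
    intro w
    rw [Set.indicator_apply]
    by_cases h : w ∈ {w : G × G | ∀ s ∈ L, w.2 * B.i s.2.1 * w.2⁻¹ = B.i s.1 * (w.1 ^ m) ^ s.2.2}
    · simp only [if_pos h]
      rw [hf2, ← Finset.mul_sum]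
      ring
    · simp only [if_neg h, Finset.sum_const_zero, mul_zero]
  rw [Finset.sum_congr rfl fun w _ => hexp w, ← Finset.mul_sum, Finset.sum_comm,
    Finset.sum_congr rfl fun z _ => hsub z, Finset.sum_const, nsmul_eq_mul, mul_assoc]
  have hcu : (Finset.univ : Finset (B.C (p2 L))).card = Nat.card (B.C (p2 L)) := by
    rw [Nat.card_eq_fintype_card]
    rfl
  rw [hcu]

/-- SMX -/
theorem smx (hSmg : T3.SmgStmt) (nsd : NsdStmt) (fud : FudStmt) (cjd : CjdStmt) : SmxStmt := by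
  intro ℓ _ M _ hM hℓ V₀ G _ _ _ _ E₀ hF B hB n m hPE L hRw χ hχ χ' hχ'
  classical
  have := Fintype.ofFinite G
  have := Fintype.ofFinite V₀
  have := Fintype.ofFinite (MulAut V₀)
  obtain ⟨-, -, -, h4, -⟩ := nsd ℓ M hM hℓ V₀ G E₀ hF B hB (p2 L) hRw
  obtain ⟨c₀, hc₀⟩ : ∃ c₀ : ℂ, c₀ = (Nat.card (B.C (p2 L)) : ℂ) / (ℓ ^ 2 * B.D (p2 L)) := ⟨_, rfl⟩
  obtain ⟨a, ha⟩ : ∃ a : V₀ → ℂ, a = fun x =>
    starRingEnd ℂ (lam B (p2 L) χ' x) / (ux B.U (p2 L) x : ℚ) := ⟨_, rfl⟩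
  obtain ⟨R, hR⟩ : ∃ R : V₀ → ℂ, R = fun y =>
    ∑ᶠ s, bh B (p1 L ⊔ Subgroup.zpowers y) s * χ (B.i y * s) := ⟨_, rfl⟩
  have hA : ∀ h, χ' h = c₀ * ∑ x, a x * fc B (p2 L) x h⁻¹ := by
    intro h
    by_cases hh : h ∈ B.C (p2 L)
    · rw [h4 χ' hχ' h hh, finsum_eq_sum_of_fintype, hc₀, ha]
    · rw [hχ'.1 h hh, Finset.sum_eq_zero, mul_zero]
      intro x _
      rw [fc_out (p2 L) x (fun h' => hh (by simpa using (B.C (p2 L)).inv_mem h')), mul_zero]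
  have hB1 : SL B m L χ χ' = c₀ * ∑ x, a x *
      ∑ᶠ w ∈ {w : G × G | ∀ s ∈ L, w.2 * B.i s.2.1 * w.2⁻¹ = B.i s.1 * (w.1 ^ m) ^ s.2.2},
        χ w.1 * fc B (p2 L) x (w.2⁻¹ * w.1 * w.2) := by
    unfold SL
    rw [finsum_mem_ite]
    have h1 : ∀ w : G × G, (if (∀ s ∈ L, w.2 * B.i s.2.1 * w.2⁻¹ =
        B.i s.1 * (w.1 ^ m) ^ s.2.2) then χ w.1 * χ' (w.2⁻¹ * w.1⁻¹ * w.2) else 0) =
        ∑ x, c₀ * (a x * (if (∀ s ∈ L, w.2 * B.i s.2.1 * w.2⁻¹ =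
        B.i s.1 * (w.1 ^ m) ^ s.2.2) then χ w.1 * fc B (p2 L) x (w.2⁻¹ * w.1 * w.2) else 0)) := by
      intro w
      by_cases h : ∀ s ∈ L, w.2 * B.i s.2.1 * w.2⁻¹ = B.i s.1 * (w.1 ^ m) ^ s.2.2
      · simp only [if_pos h]
        rw [hA, Finset.mul_sum, Finset.mul_sum]
        refine Finset.sum_congr rfl fun x _ => ?_
        have e1 : (w.2⁻¹ * w.1⁻¹ * w.2)⁻¹ = w.2⁻¹ * w.1 * w.2 := by group
        rw [e1]
        ring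
      · simp only [if_neg h, mul_zero, Finset.sum_const_zero]
    rw [Finset.sum_congr rfl fun w _ => h1 w, Finset.sum_comm, Finset.mul_sum]
    refine Finset.sum_congr rfl fun x _ => ?_
    rw [← Finset.mul_sum, ← Finset.mul_sum, finsum_mem_ite]
  have hR1 : (∑ᶠ w ∈ {w : MulAut V₀ × V₀ | w.1 ∈ E₀ ∧ ∀ s ∈ L,
      w.1 (s.2.1 * (w.2 ^ s.2.2)⁻¹) = s.1},
      a w.2 * (Nat.card (B.C (p2 L ⊔ Subgroup.zpowers w.2)) : ℂ)⁻¹ * R (w.1 w.2)) =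
      ∑ x, a x * ((Nat.card (B.C (p2 L ⊔ Subgroup.zpowers x)) : ℂ)⁻¹ *
        ∑ᶠ σ ∈ Sx E₀ L x, R (σ x)) := by
    rw [finsum_mem_ite, Fintype.sum_prod_type_right]
    refine Finset.sum_congr rfl fun x _ => ?_
    unfold Sx
    rw [finsum_mem_ite, Finset.mul_sum, Finset.mul_sum]
    refine Finset.sum_congr rfl fun σ _ => ?_
    by_cases h : σ ∈ E₀ ∧ ∀ s ∈ L, σ (s.2.1 * (x ^ s.2.2)⁻¹) = s.1
    · simp only [if_pos h]
      ring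
    · simp only [if_neg h, mul_zero]
  have hS0 : (Nat.card (St E₀ (p1 L)) : ℂ) ≠ 0 := by exact_mod_cast Nat.card_pos.ne'
  have hfin : (∑ᶠ w ∈ {w : MulAut V₀ × V₀ | w.1 ∈ E₀ ∧ ∀ s ∈ L,
      w.1 (s.2.1 * (w.2 ^ s.2.2)⁻¹) = s.1},
      starRingEnd ℂ (lam B (p2 L) χ' w.2) / (ux B.U (p2 L) w.2 : ℚ) *
        (Nat.card (B.C (p2 L ⊔ Subgroup.zpowers w.2)) : ℂ)⁻¹ *
        ∑ᶠ s, bh B (p1 L ⊔ Subgroup.zpowers (w.1 w.2)) s * χ (B.i (w.1 w.2) * s)) =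
      ∑ x, a x * ((Nat.card (B.C (p2 L ⊔ Subgroup.zpowers x)) : ℂ)⁻¹ *
        ∑ᶠ σ ∈ Sx E₀ L x, R (σ x)) := by
    rw [← hR1, ha, hR]
  rw [hfin, hB1, Finset.mul_sum, Finset.mul_sum]
  refine Finset.sum_congr rfl fun x _ => ?_
  rw [sum_x hM hF hB.toSb hPE L x χ, sum_TX hSmg fud cjd hM hℓ hF hB.toSb hχ]
  have e1 : (∑ᶠ σ ∈ Sx E₀ L x, ∑ᶠ s, bh B (p1 L ⊔ Subgroup.zpowers (σ x)) s *
      χ (B.i (σ x) * s)) = ∑ᶠ σ ∈ Sx E₀ L x, R (σ x) := by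
    rw [hR]
  rw [e1, hc₀]
  ring

end Pool.Agent.PP.SD.H30
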