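import Pool.Agent.ASD.Stmts4
import Pool.Agent.Helper82_ASD.GPD
import Pool.Agent.Helper20_PP.Rst
import Pool.Agent.Helper88_AT3.Loc

/-!
# Squad ASD, row SMX, part 1: the second main theorem in the subgroup `C W`, uniqueness of the block
-/

open scoped BigOperators

set_option autoImplicit false

noncomputable section

namespace Pool.Agent.PP.SD.H30

open Pool.Agent.Helper51_AWC Pool.Agent.Helper79_WRA Pool.Agent.PP Pool.Agent.PP.KF
open Pool.Agent.PP.K9 Pool.Agent.PP.K9.H97 Pool.Agent.PP.H75 Pool.Agent.PP.T3 Pool.Agent.PP.SO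

attribute [local instance] Ideal.Quotient.field

section smg

variable {G : Type} [Group G] [Finite G] {ℓ : ℕ} {M : Ideal (integralClosure ℤ ℂ)} [M.IsMaximal]

omit [Finite G] in
theorem mulF_comm_cl {F H : Type} [Field F] [Group H] [Finite H] {a b : H → F} (hb : IsCl b) :
    mulF a b = mulF b a :=
  mulF_comm_of (K := ⊤) (fun _ hx => absurd (Subgroup.mem_top _) hx) (fun k _ => cj_isCl k hb)

/-- the isomorphism of `H ∩ C(z)` with the centraliser of `z` in `H` -/
def phi {H X : Subgroup G} {z : G} (hz : z ∈ H) (hX : ∀ y, y ∈ X ↔ y ∈ H ∧ y * z = z * y) :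
    X ≃* Cu (⟨z, hz⟩ : H) where
  toFun c := ⟨⟨c, ((hX c).1 c.2).1⟩, Subgroup.mem_centralizer_singleton_iff.2
    (Subtype.ext ((hX c).1 c.2).2)⟩
  invFun c := ⟨(c : H), (hX _).2 ⟨(c : H).2,
    congrArg Subtype.val (Subgroup.mem_centralizer_singleton_iff.1 c.2)⟩⟩
  left_inv _ := rfl
  right_inv _ := rfl
  map_mul' _ _ := rfl

/-- the second main theorem for the element `z` of the subgroup `H` -/
theorem smg_sub (hSmg : T3.SmgStmt) [Fact ℓ.Prime] (hM : (ℓ : integralClosure ℤ ℂ) ∈ M)
    {H X : Subgroup G} {z : G} (hz : z ∈ H) (hzE : El ℓ z)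
    (hX : ∀ y, y ∈ X ↔ y ∈ H ∧ y * z = z * y) {e β : G → FF M} (he : Bx H e) (hβ : Bx X β)
    (hne : mulF (fun t : X => e t) (fun t : X => β t) ≠ fun t : X => β t) {χ : G → ℂ}
    (hχ : (fun t : H => χ t) ∈ IrrE M (fun t : H => e t)) :
    ∑ᶠ y : G, PP.ext0 X (eh M (fun t : X => β t)) y * χ (z * y) = 0 := by
  classical
  have hF : GoodF ℓ (FF M) := H50.fld ℓ Fact.out M hM
  obtain ⟨y₀, hy₀⟩ : ∃ y₀ : H, y₀ = ⟨z, hz⟩ := ⟨_, rfl⟩
  set φ := phi hz hX with hφ
  set b : Cu (⟨z, hz⟩ : H) → FF M := fun c => β ((c : H) : G) with hb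
  have hbb : IsBlk b := by
    have h := H20.IsBlk_equiv φ.symm hβ.blk
    exact h
  have hy₀E : El ℓ (⟨z, hz⟩ : H) := by
    obtain ⟨n, hn⟩ := hzE
    exact ⟨n, Subtype.ext hn⟩
  have hgi : IsIdem (fun t : Cu (⟨z, hz⟩ : H) => (fun t : H => e t) t) :=
    T3.H88.idem_cu hF he.blk.1 hy₀E
  -- the product of the two idempotents
  have hprod : mulF (fun t : Cu (⟨z, hz⟩ : H) => (fun t : H => e t) t) b = 0 := by
    rw [mulF_comm_cl hbb.1.1]
    rcases hbb.2.2 _ hgi with h | h
    · exfalso
      apply hne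
      rw [← mulF_comm_cl hbb.1.1] at h
      have h2 := H20.mulF_equiv φ (fun t : Cu (⟨z, hz⟩ : H) => (fun t : H => e t) t) b
      have h3 : (fun h : X => (mulF (fun t : Cu (⟨z, hz⟩ : H) => (fun t : H => e t) t) b) (φ h)) =
          fun t : X => β t := by
        rw [h]
        rfl
      exact h2.trans h3
    · exact h
  have hsum : ∑ᶠ y : G, PP.ext0 X (eh M (fun t : X => β t)) y * χ (z * y) =
      ∑ᶠ c : Cu (⟨z, hz⟩ : H), eh M b c * χ (z * ((c : H) : G)) := by
    rw [H75.sum_sub X _ (fun x hx => by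
      have : PP.ext0 X (eh M (fun t : X => β t)) x = 0 := by
        unfold PP.ext0
        rw [dif_neg hx]
      rw [this, zero_mul])]
    rw [← finsum_comp_equiv φ.toEquiv]
    apply finsum_congr
    intro c
    have h4 : PP.ext0 X (eh M (fun t : X => β t)) (c : G) = eh M (fun t : X => β t) c := by
      unfold PP.ext0
      rw [dif_pos c.2]
    have h5 := T3.H62.eh_equiv (M := M) φ (b := fun t : X => β t) hβ.blk.1.1 c
    rw [h4, ← h5]
    rfl
  rw [hsum]
  by_cases hz1 : z = 1
  · -- two different blocks of `H`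
    subst hz1
    have hHX : ∀ y, y ∈ X ↔ y ∈ H := fun y => by rw [hX y]; simp
    have hXH : X = H := Subgroup.ext hHX
    subst hXH
    rw [← hsum]
    have hne' : e ≠ β := by
      rintro rfl
      exact hne he.blk.1.2
    have horth : mulF (eh M (fun t : X => β t)) (eh M (fun t : X => e t)) = 0 := by
      refine T3.H62.eh_orth hβ.blk.1 he.blk.1 ?_
      rcases hβ.dich he with h3 | h3
      · exact absurd h3.symm hne'
      · rw [← mulF_res X e hβ.supp, h3]
        rfl
    have := Fintype.ofFinite X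
    have h1 : H50.om (eh M (fun t : X => β t)) (fun t : X => χ t) = 0 := by
      refine (KF.H25.eh_om (M := M) (fun t : X => β t) hχ.1).2 ?_
      intro hχβ
      have h2 := KF.H25.chv_eh (M := M) (fun t : X => β t) hχ.1 (eh M (fun t : X => e t))
      rw [horth, (KF.H25.eh_om (M := M) (fun t : X => β t) hχ.1).1 hχβ, one_mul] at h2
      have h3 := (KF.H25.eh_om (M := M) (fun t : X => e t) hχ.1).1 hχ
      rw [H50.om] at h3
      have h4 : chv (eh M (fun t : X => e t)) (fun t : X => χ t) = 0 := by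
        rw [← h2, chv]
        simp
      rw [chv, finsum_eq_sum_of_fintype] at h4
      rw [h4, zero_div] at h3
      exact zero_ne_one h3
    rw [H50.om, div_eq_zero_iff] at h1
    rcases h1 with h1 | h1
    · rw [H75.sum_sub X _ (fun x hx => by
        have : PP.ext0 X (eh M (fun t : X => β t)) x = 0 := by
          unfold PP.ext0
          rw [dif_neg hx]
        rw [this, zero_mul]), finsum_eq_sum_of_fintype, ← h1]
      refine Finset.sum_congr rfl fun c _ => ?_
      have h4 : PP.ext0 X (eh M (fun t : X => β t)) (c : G) = eh M (fun t : X => β t) c := by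
        unfold PP.ext0
        rw [dif_pos c.2]
      rw [h4, one_mul]
    · exact absurd h1 (irr_one_ne (χ := fun t : X => χ t) hχ.1)
  · have hy1 : (⟨z, hz⟩ : H) ≠ 1 := fun h => hz1 (congrArg Subtype.val h)
    have h := (hSmg ℓ M hM H ⟨z, hz⟩ 1 hy1 hy₀E (Subgroup.one_mem _) (by
      unfold Reg
      rw [orderOf_one]
      exact Nat.coprime_one_left ℓ) b hbb.1 (fun t : H => e t) he.blk.1).2 hprod
      (fun t : H => χ t) hχ
    unfold gbv at h
    rw [← h]
    apply finsum_congr
    intro c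
    rw [mul_one]
    rfl

end smg

end Pool.Agent.PP.SD.H30
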