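import Pool.Agent.Helper30_ASD.SMX1
import Pool.Agent.Helper59_ASO.SSL

/-!
# Squad ASD, row SMX, part 2: uniqueness of the block, the maps
-/

open scoped BigOperators

set_option autoImplicit false
set_option linter.unusedSectionVars false

noncomputable section

namespace Pool.Agent.PP.SD.H30

open Pool.Agent.Helper51_AWC Pool.Agent.Helper79_WRA Pool.Agent.PP Pool.Agent.PP.KF
open Pool.Agent.PP.K9 Pool.Agent.PP.K9.H97 Pool.Agent.PP.H75 Pool.Agent.PP.T3 Pool.Agent.PP.SO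
open Pool.Agent.PP.SO.H82 (memC conj_of_mem mem_of_conj)
open Pool.Agent.PP.SO.H59 (C_mono i_mem_C fc_out)

attribute [local instance] Ideal.Quotient.field

section blk

variable {V₀ G : Type} [CommGroup V₀] [Group G] [Finite G] {ℓ : ℕ}
  {M : Ideal (integralClosure ℤ ℂ)} [M.IsMaximal] {E₀ : Subgroup (MulAut V₀)}
  {B : Bk (FF M) V₀ G}

omit [Finite G] in
theorem cent_le (W : Subgroup V₀) : Subgroup.centralizer (B.i.range : Set G) ≤ B.C W := by
  unfold Bk.C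
  refine Subgroup.centralizer_le ?_
  rintro _ ⟨v, -, rfl⟩
  exact ⟨v, rfl⟩

/-- uniqueness of the block over `b W'` -/
theorem uniq_blk [Finite V₀] [Fact ℓ.Prime] (hM : (ℓ : integralClosure ℤ ℂ) ∈ M) (hB : Sb ℓ M E₀ B)
    {W W' : Subgroup V₀} (hle : W ≤ W') {b' : G → FF M} (hb' : Bx (B.C W) b')
    (h : mulF (fun t : B.C W' => b' t) (fun t : B.C W' => B.b W' t) =
      fun t : B.C W' => B.b W' t) : b' = B.b W := by
  classical
  have hF : GoodF ℓ (FF M) := H50.fld ℓ Fact.out M hM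
  have hV : IsPGroup ℓ B.i.range := hB.ld.tp.pg
  have hCC : B.C W' ≤ B.C W := C_mono hle
  have hVC : ∀ p ∈ B.i.range, ∀ U : Subgroup V₀, p ∈ B.C U := by
    rintro _ ⟨v, rfl⟩ U
    exact i_mem_C v U
  have hWb : Bx (B.C W') (B.b W') := (hB.lb W').blk
  have hW : Bx (B.C W) (B.b W) := (hB.lb W).blk
  set r : G → FF M := H75.ext0 (B.C W') (fun t : B.C W' => b' t) with hr
  have hr1 : ∀ x ∈ B.C W', r x = b' x := fun x hx => ext0_apply (B.C W') _ ⟨x, hx⟩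
  have hr0 : ∀ x, x ∉ B.C W' → r x = 0 := ext0_supp _ _
  have hmul : mulF r (B.b W') = B.b W' := by
    apply eq_of_res (mulF_supp (B.C W') hr0 hWb.supp) hWb.supp
    rw [mulF_res (B.C W') _ hr0]
    have h1 : (fun t : B.C W' => r t) = fun t : B.C W' => b' t :=
      funext fun t => hr1 t t.2
    rw [h1]
    exact h
  have hinv : ∀ {U : Subgroup V₀} {c : G → FF M}, Bx (B.C U) c → ∀ p ∈ B.i.range, ∀ x,
      c (p * x * p⁻¹) = c x := fun {U c} hc p hp =>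
    (cj_eq_iff p c).1 (hc.ix.inv (hVC p hp U))
  have hinvr : ∀ p ∈ B.i.range, ∀ x, r (p * x * p⁻¹) = r x := by
    intro p hp x
    by_cases hx : x ∈ B.C W'
    · have hx' : p * x * p⁻¹ ∈ B.C W' :=
        (B.C W').mul_mem ((B.C W').mul_mem (hVC p hp W') hx) ((B.C W').inv_mem (hVC p hp W'))
      rw [hr1 _ hx, hr1 _ hx', hinv hb' p hp x]
    · have hx' : p * x * p⁻¹ ∉ B.C W' := by
        intro h'
        apply hx
        have h2 := (B.C W').mul_mem ((B.C W').mul_mem ((B.C W').inv_mem (hVC p hp W')) h')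
          (hVC p hp W')
        have e : p⁻¹ * (p * x * p⁻¹) * p = x := by group
        rwa [e] at h2
      rw [hr0 _ hx, hr0 _ hx']
  have hbr : br B.i.range r = br B.i.range b' := by
    funext x
    by_cases hx : x ∈ Subgroup.centralizer (B.i.range : Set G)
    · rw [H66.br_of_mem hx, H66.br_of_mem hx, hr1 x (cent_le W' hx)]
    · rw [H66.br_of_not_mem hx, H66.br_of_not_mem hx]
  have h1 : mulF (br B.i.range b') B.g = B.g := by
    have h2 := H66.br_mulF hF hV hinvr (hinv hWb)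
    rw [hmul, hbr] at h2
    calc mulF (br B.i.range b') B.g
        = mulF (br B.i.range b') (mulF (br B.i.range (B.b W')) B.g) := by rw [(hB.lb W').gam]
      _ = mulF (mulF (br B.i.range b') (br B.i.range (B.b W'))) B.g := (mulF_assoc _ _ _).symm
      _ = B.g := by rw [← h2, (hB.lb W').gam]
  rcases hb'.dich hW with h2 | h2
  · exact h2
  · exfalso
    apply hB.ld.gam.ne
    have h3 := H66.br_mulF hF hV (hinv hb') (hinv hW)
    rw [h2, T3.H88.br_zero] at h3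
    calc B.g = mulF (br B.i.range b') (mulF (br B.i.range (B.b W)) B.g) := by
          rw [(hB.lb W).gam, h1]
      _ = mulF (mulF (br B.i.range b') (br B.i.range (B.b W))) B.g := (mulF_assoc _ _ _).symm
      _ = 0 := by rw [← h3, mulF_zero_left]

end blk

section maps

variable {F V₀ G : Type} [CommGroup V₀] [Group G] {B : Bk F V₀ G}

/-- the subgroup generated by the `q x^(-k)` -/
def Wx (L : Set (V₀ × V₀ × ℤ)) (x : V₀) : Subgroup V₀ :=
  Subgroup.closure {v | ∃ s ∈ L, s.2.1 * (x ^ s.2.2)⁻¹ = v}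

/-- the elements which map the `q x^(-k)` to the `p` -/
def TX (B : Bk F V₀ G) (L : Set (V₀ × V₀ × ℤ)) (x : V₀) : Set G :=
  {w | ∀ s ∈ L, w * B.i (s.2.1 * (x ^ s.2.2)⁻¹) * w⁻¹ = B.i s.1}

variable {L : Set (V₀ × V₀ × ℤ)} {x : V₀} {w : G}

theorem TX_fwd (hw : w ∈ TX B L x) : ∀ v ∈ Wx L x, ∃ u ∈ p1 L, w * B.i v * w⁻¹ = B.i u := by
  have hle : Wx L x ≤ ((p1 L).map B.i).comap ((MulAut.conj w).toMonoidHom.comp B.i) := by
    unfold Wx
    rw [Subgroup.closure_le]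
    rintro _ ⟨s, hs, rfl⟩
    exact ⟨s.1, Subgroup.subset_closure ⟨s, hs, rfl⟩, (hw s hs).symm⟩
  intro v hv
  obtain ⟨u, hu, hu2⟩ := hle hv
  exact ⟨u, hu, hu2.symm⟩

theorem TX_bwd (hw : w ∈ TX B L x) : ∀ u ∈ p1 L, ∃ v ∈ Wx L x, w * B.i v * w⁻¹ = B.i u := by
  have hle : p1 L ≤ ((Wx L x).map ((MulAut.conj w).toMonoidHom.comp B.i)).comap B.i := by
    unfold p1
    rw [Subgroup.closure_le]
    rintro _ ⟨s, hs, rfl⟩
    exact ⟨s.2.1 * (x ^ s.2.2)⁻¹, Subgroup.subset_closure ⟨s, hs, rfl⟩, hw s hs⟩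
  intro u hu
  obtain ⟨v, hv, hv2⟩ := hle hu
  exact ⟨v, hv, hv2⟩

theorem TX_C (hw : w ∈ TX B L x) (y : G) : y ∈ B.C (p1 L) ↔ w⁻¹ * y * w ∈ B.C (Wx L x) := by
  rw [memC, memC]
  constructor
  · intro h v hv
    obtain ⟨u, hu, e⟩ := TX_fwd hw v hv
    have h1 := h u hu
    rw [← e] at h1
    have h2 : B.i v * (w⁻¹ * y * w) = w⁻¹ * (w * B.i v * w⁻¹ * y) * w := by group
    rw [h2, h1]
    group
  · intro h u hu
    obtain ⟨v, hv, e⟩ := TX_bwd hw u hu
    have h1 := h v hv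
    rw [← e]
    have h2 : w * B.i v * w⁻¹ * y = w * (B.i v * (w⁻¹ * y * w)) * w⁻¹ := by group
    rw [h2, h1]
    group

omit [Group G] in
theorem Wx_sup (L : Set (V₀ × V₀ × ℤ)) (x : V₀) :
    Wx L x ⊔ Subgroup.zpowers x = p2 L ⊔ Subgroup.zpowers x := by
  have hx1 : x ∈ p2 L ⊔ Subgroup.zpowers x :=
    Subgroup.mem_sup_right (Subgroup.mem_zpowers x)
  have hx2 : x ∈ Wx L x ⊔ Subgroup.zpowers x :=
    Subgroup.mem_sup_right (Subgroup.mem_zpowers x)
  apply le_antisymm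
  · apply sup_le _ le_sup_right
    unfold Wx
    rw [Subgroup.closure_le]
    rintro _ ⟨s, hs, rfl⟩
    exact Subgroup.mul_mem _ (Subgroup.mem_sup_left (Subgroup.subset_closure ⟨s, hs, rfl⟩))
      (Subgroup.inv_mem _ (Subgroup.zpow_mem _ hx1 _))
  · apply sup_le _ le_sup_right
    unfold p2
    rw [Subgroup.closure_le]
    rintro _ ⟨s, hs, rfl⟩
    have h1 : s.2.1 * (x ^ s.2.2)⁻¹ ∈ Wx L x ⊔ Subgroup.zpowers x :=
      Subgroup.mem_sup_left (Subgroup.subset_closure ⟨s, hs, rfl⟩)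
    have h2 := Subgroup.mul_mem _ h1 (Subgroup.zpow_mem _ hx2 s.2.2)
    rw [inv_mul_cancel_right] at h2
    exact h2

/-- the centraliser of `W'` -/
theorem mem_C_sup (W : Subgroup V₀) (x : V₀) (y : G) :
    y ∈ B.C (W ⊔ Subgroup.zpowers x) ↔ y ∈ B.C W ∧ B.i x * y = y * B.i x := by
  constructor
  · intro h
    exact ⟨(memC B W y).2 fun v hv => (memC B _ y).1 h v (Subgroup.mem_sup_left hv),
      (memC B _ y).1 h x (Subgroup.mem_sup_right (Subgroup.mem_zpowers x))⟩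
  · rintro ⟨h1, h2⟩
    have hle : W ⊔ Subgroup.zpowers x ≤ (Subgroup.centralizer ({y} : Set G)).comap B.i := by
      rw [sup_le_iff, Subgroup.zpowers_le]
      refine ⟨fun v hv => ?_, ?_⟩
      · exact Subgroup.mem_centralizer_singleton_iff.2 ((memC B W y).1 h1 v hv)
      · exact Subgroup.mem_centralizer_singleton_iff.2 h2
    rw [memC]
    intro v hv
    exact Subgroup.mem_centralizer_singleton_iff.1 (hle hv)

/-- `Σ(x)` -/
def Sx (E₀ : Subgroup (MulAut V₀)) (L : Set (V₀ × V₀ × ℤ)) (x : V₀) : Set (MulAut V₀) :=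
  {σ | σ ∈ E₀ ∧ ∀ s ∈ L, σ (s.2.1 * (x ^ s.2.2)⁻¹) = s.1}

variable {E₀ : Subgroup (MulAut V₀)} {σ : MulAut V₀}

omit [Group G] in
theorem Sx_map (hσ : σ ∈ Sx E₀ L x) : (Wx L x).map σ.toMonoidHom = p1 L := by
  unfold Wx p1
  rw [MonoidHom.map_closure]
  congr 1
  ext u
  constructor
  · rintro ⟨_, ⟨s, hs, rfl⟩, rfl⟩
    exact ⟨s, hs, (hσ.2 s hs).symm⟩
  · rintro ⟨s, hs, rfl⟩
    exact ⟨_, ⟨s, hs, rfl⟩, hσ.2 s hs⟩

omit [Group G] in
theorem Sx_map2 (hσ : σ ∈ Sx E₀ L x) : (p2 L ⊔ Subgroup.zpowers x).map σ.toMonoidHom =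
    p1 L ⊔ Subgroup.zpowers (σ x) := by
  rw [← Wx_sup, Subgroup.map_sup, Sx_map hσ]
  congr 1
  exact MonoidHom.map_zpowers _ _

/-- the number of the elements of `Σ(x)` -/
theorem Sx_card (hne : (Sx E₀ L x).Nonempty) : (Sx E₀ L x).ncard = Nat.card (St E₀ (p1 L)) := by
  obtain ⟨σ₀, hσ₀⟩ := hne
  rw [← Nat.card_coe_set_eq]
  refine Nat.card_congr
    { toFun := fun σ => ⟨σ.1 * σ₀⁻¹, E₀.mul_mem σ.2.1 (E₀.inv_mem hσ₀.1), ?_⟩
      invFun := fun τ => ⟨τ.1 * σ₀, E₀.mul_mem τ.2.1 hσ₀.1, ?_⟩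
      left_inv := fun σ => Subtype.ext (by simp)
      right_inv := fun τ => Subtype.ext (by simp) }
  · have hle : p1 L ≤ (MonoidHom.eqLocus (σ.1 * σ₀⁻¹ : MulAut V₀).toMonoidHom
        (MonoidHom.id V₀)) := by
      unfold p1
      rw [Subgroup.closure_le]
      rintro _ ⟨s, hs, rfl⟩
      show (σ.1 * σ₀⁻¹ : MulAut V₀) s.1 = s.1
      rw [MulAut.mul_apply]
      have h1 : σ₀⁻¹ s.1 = s.2.1 * (x ^ s.2.2)⁻¹ := by
        rw [← hσ₀.2 s hs, MulAut.inv_apply_self]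
      rw [h1, σ.2.2 s hs]
    exact fun w hw => hle hw
  · intro s hs
    rw [MulAut.mul_apply, hσ₀.2 s hs]
    exact τ.2.2 _ (Subgroup.subset_closure ⟨s, hs, rfl⟩)

end maps

end Pool.Agent.PP.SD.H30
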