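import Pool.Agent.Helper30_ASD.SMX2

/-!
# Squad ASD, row SMX, part 3: the sum over the `w`
-/

open scoped BigOperators

set_option autoImplicit false
set_option linter.unusedSectionVars false

noncomputable section

namespace Pool.Agent.PP.SD.H30

open Pool.Agent.Helper51_AWC Pool.Agent.Helper79_WRA Pool.Agent.PP Pool.Agent.PP.KF
open Pool.Agent.PP.K9 Pool.Agent.PP.K9.H97 Pool.Agent.PP.H75 Pool.Agent.PP.T3 Pool.Agent.PP.SO
open Pool.Agent.PP.SO.H82 (memC conj_of_mem mem_of_conj)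
open Pool.Agent.PP.SO.H59 (C_mono i_mem_C fc_out finsum_mem_ite)

attribute [local instance] Ideal.Quotient.field

section blk

variable {V₀ G : Type} [CommGroup V₀] [Group G] [Finite G] {ℓ : ℕ}
  {M : Ideal (integralClosure ℤ ℂ)} [M.IsMaximal] {E₀ : Subgroup (MulAut V₀)}
  {B : Bk (FF M) V₀ G} {L : Set (V₀ × V₀ × ℤ)} {x : V₀} {χ : G → ℂ}

theorem ch_conj {W : Subgroup V₀} (hχ : χ ∈ Ch B W) {h : G} (hh : h ∈ B.C W) (y : G) :
    χ (h * y * h⁻¹) = χ y := by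
  by_cases hy : y ∈ B.C W
  · exact irr_conj hχ.2.1 (⟨y, hy⟩ : B.C W) ⟨h, hh⟩
  · have hy' : h * y * h⁻¹ ∉ B.C W := by
      intro h'
      apply hy
      have h2 := (B.C W).mul_mem ((B.C W).mul_mem ((B.C W).inv_mem hh) h') hh
      have e : h⁻¹ * (h * y * h⁻¹) * h = y := by group
      rwa [e] at h2
    rw [hχ.1 y hy, hχ.1 _ hy']

/-- the inner sum -/
def gW (B : Bk (FF M) V₀ G) (W' : Subgroup V₀) (x : V₀) (χ : G → ℂ) (w : G) : ℂ :=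
  ∑ᶠ s, bh B W' s * χ (w * (B.i x * s) * w⁻¹)

/-- the lift of the conjugate block -/
theorem bh_cjX (hB : Sb ℓ M E₀ B) {X : Subgroup G} {W' : Subgroup V₀} {w : G}
    (hC : ∀ y, y ∈ X ↔ w⁻¹ * y * w ∈ B.C W') (y : G) :
    bh B W' (w⁻¹ * y * w) = PP.ext0 X (eh M (fun t : X => H75.cj w (B.b W') t)) y := by
  classical
  by_cases hy : y ∈ X
  · have hb' : IsIdem (fun t : B.C W' => B.b W' t) := (hB.lb W').blk.blk.1
    have h3 := T3.H62.eh_equiv (M := M) (SO.H82.cjW hC) hb'.1 ((SO.H82.cjW hC).symm ⟨y, hy⟩)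
    rw [(SO.H82.cjW hC).apply_symm_apply] at h3
    have h4 : (fun y : X => B.b W' (((SO.H82.cjW hC).symm y : B.C W') : G)) =
        fun t : X => H75.cj w (B.b W') t := rfl
    rw [h4] at h3
    have h5 : PP.ext0 X (eh M (fun t : X => H75.cj w (B.b W') t)) y =
        eh M (fun t : X => H75.cj w (B.b W') t) ⟨y, hy⟩ := by
      unfold PP.ext0
      rw [dif_pos hy]
    rw [h5, h3]
    have h6 : w⁻¹ * y * w ∈ B.C W' := (hC y).1 hy
    unfold bh PP.ext0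
    rw [dif_pos h6]
    rfl
  · rw [SO.H10L.bh_supp B W' _ (fun h => hy ((hC y).2 h))]
    unfold PP.ext0
    rw [dif_neg hy]

/-- if the inner sum is not zero then the block is the right one -/
theorem gW_blk [Finite V₀] (hSmg : T3.SmgStmt) [Fact ℓ.Prime] (hM : (ℓ : integralClosure ℤ ℂ) ∈ M)
    (hF : ∀ v : V₀, v ^ ℓ = 1) (hB : Sb ℓ M E₀ B) {w : G} (hw : w ∈ TX B L x)
    (hχ : χ ∈ Ch B (p1 L)) (h : gW B (p2 L ⊔ Subgroup.zpowers x) x χ w ≠ 0) :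
    H75.cj w (B.b (Wx L x)) = B.b (p1 L) := by
  classical
  obtain ⟨z, hz⟩ : ∃ z, z = w * B.i x * w⁻¹ := ⟨_, rfl⟩
  obtain ⟨X, hX⟩ : ∃ X : Subgroup G, X = B.C (p1 L) ⊓ Cu z := ⟨_, rfl⟩
  have hX1 : ∀ y, y ∈ X ↔ y ∈ B.C (p1 L) ∧ y * z = z * y := by
    intro y
    rw [hX, Subgroup.mem_inf]
    exact and_congr_right fun _ => Subgroup.mem_centralizer_singleton_iff
  have hX2 : ∀ y, y ∈ X ↔ w⁻¹ * y * w ∈ B.C (p2 L ⊔ Subgroup.zpowers x) := by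
    intro y
    rw [hX1, ← Wx_sup, mem_C_sup, ← TX_C hw]
    refine and_congr_right fun _ => ?_
    rw [hz]
    constructor
    · intro h1
      have h2 : B.i x * (w⁻¹ * y * w) = w⁻¹ * (w * B.i x * w⁻¹ * y) * w := by group
      rw [h2, ← h1]
      group
    · intro h1
      have h2 : y * (w * B.i x * w⁻¹) = w * (w⁻¹ * y * w * B.i x) * w⁻¹ := by group
      rw [h2, ← h1]
      group
  have hzC : z ∈ B.C (p1 L) := by
    rw [TX_C hw, hz]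
    have e : w⁻¹ * (w * B.i x * w⁻¹) * w = B.i x := by group
    rw [e]
    exact i_mem_C x _
  have hzE : El ℓ z := by
    refine ⟨1, ?_⟩
    rw [pow_one, hz, conj_pow, ← map_pow, hF, map_one, mul_one, mul_inv_cancel]
  have hβ : Bx X (H75.cj w (B.b (p2 L ⊔ Subgroup.zpowers x))) :=
    T3.H62.bx_cj hX2 (hB.lb _).blk
  -- the inner sum
  have hsum : gW B (p2 L ⊔ Subgroup.zpowers x) x χ w = ∑ᶠ y : G, PP.ext0 X (eh M (fun t : X =>
      H75.cj w (B.b (p2 L ⊔ Subgroup.zpowers x)) t)) y * χ (z * y) := by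
    unfold gW
    rw [← finsum_comp_equiv (MulAut.conj w).symm.toEquiv]
    apply finsum_congr
    intro y
    have e1 : (MulAut.conj w).symm.toEquiv y = w⁻¹ * y * w := rfl
    rw [e1, bh_cjX hB hX2 y, hz]
    congr 2
    group
  have h1 : mulF (fun t : X => B.b (p1 L) t) (fun t : X =>
      H75.cj w (B.b (p2 L ⊔ Subgroup.zpowers x)) t) =
      fun t : X => H75.cj w (B.b (p2 L ⊔ Subgroup.zpowers x)) t := by
    by_contra hne
    apply h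
    rw [hsum]
    exact smg_sub hSmg hM hzC hzE hX1 (hB.lb _).blk hβ hne hχ.2
  -- back to `C W'`
  have hb' : Bx (B.C (Wx L x)) (H75.cj w⁻¹ (B.b (p1 L))) := by
    refine T3.H62.bx_cj (fun y => ?_) (hB.lb _).blk
    change y ∈ B.C (Wx L x) ↔ w⁻¹⁻¹ * y * w⁻¹ ∈ B.C (p1 L)
    rw [TX_C hw]
    have e : w⁻¹ * (w⁻¹⁻¹ * y * w⁻¹) * w = y := by group
    rw [e]
  have hle : Wx L x ≤ p2 L ⊔ Subgroup.zpowers x := by
    rw [← Wx_sup]
    exact le_sup_left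
  have h2 := uniq_blk hM hB hle hb' (by
    have h3 := H20.mulF_equiv (SO.H82.cjW hX2) (fun t : X => B.b (p1 L) t)
      (fun t : X => H75.cj w (B.b (p2 L ⊔ Subgroup.zpowers x)) t)
    rw [h1] at h3
    have e1 : (fun h => (fun t : X => B.b (p1 L) t) ((SO.H82.cjW hX2) h)) =
        fun t : B.C (p2 L ⊔ Subgroup.zpowers x) => H75.cj w⁻¹ (B.b (p1 L)) t := by
      funext t
      change B.b (p1 L) (w * (t : G) * w⁻¹) = B.b (p1 L) (w⁻¹⁻¹ * (t : G) * w⁻¹)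
      rw [inv_inv]
    have e2 : (fun h => (fun t : X => H75.cj w (B.b (p2 L ⊔ Subgroup.zpowers x)) t)
        ((SO.H82.cjW hX2) h)) =
        fun t : B.C (p2 L ⊔ Subgroup.zpowers x) => B.b (p2 L ⊔ Subgroup.zpowers x) t := by
      funext t
      change B.b _ (w⁻¹ * (w * (t : G) * w⁻¹) * w) = B.b _ (t : G)
      congr 1
      group
    rw [e1, e2] at h3
    exact h3)
  rw [← h2, cj_cj_inv]

/-- then there is `σ ∈ Σ(x)` -/
theorem gW_ne (hSmg : T3.SmgStmt) (fud : FudStmt) [Fact ℓ.Prime]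
    (hM : (ℓ : integralClosure ℤ ℂ) ∈ M) [Finite V₀] (hF : Fq ℓ V₀ E₀) (hB : Sb ℓ M E₀ B) {w : G}
    (hw : w ∈ TX B L x) (hχ : χ ∈ Ch B (p1 L))
    (h : gW B (p2 L ⊔ Subgroup.zpowers x) x χ w ≠ 0) : (Sx E₀ L x).Nonempty := by
  classical
  have hcj := gW_blk hSmg hM hF.ex hB hw hχ h
  have hf := TX_fwd hw
  obtain ⟨f, hf'⟩ : ∃ f : V₀ → V₀, ∀ v ∈ Wx L x, f v ∈ p1 L ∧ w * B.i v * w⁻¹ = B.i (f v) := by
    refine ⟨fun v => if h : v ∈ Wx L x then (hf v h).choose else 1, fun v hv => ?_⟩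
    simp only [dif_pos hv]
    exact (hf v hv).choose_spec
  obtain ⟨σ, hσ, hfσ, -⟩ := fud ℓ M hM V₀ G E₀ hF B hB (p1 L) (Wx L x) w f
    (fun v hv => (hf' v hv).2) (fun v hv => (hf' v hv).1) (fun u hu => by
      obtain ⟨v, hv, e⟩ := TX_bwd hw u hu
      refine ⟨v, hv, ?_⟩
      apply hB.inj
      rw [← (hf' v hv).2, e]) hcj
  refine ⟨σ, hσ, fun s hs => ?_⟩
  have hv : s.2.1 * (x ^ s.2.2)⁻¹ ∈ Wx L x := Subgroup.subset_closure ⟨s, hs, rfl⟩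
  rw [← hfσ _ hv]
  apply hB.inj
  rw [← (hf' _ hv).2]
  exact hw s hs

variable {σ : MulAut V₀} {t : G}

omit [Finite G] in
theorem TX_iff (hσ : σ ∈ Sx E₀ L x) (ht : ∀ v, t * B.i v * t⁻¹ = B.i (σ v)) (w : G) :
    w ∈ TX B L x ↔ t⁻¹ * w ∈ B.C (Wx L x) := by
  constructor
  · intro hw
    have hle : Wx L x ≤ MonoidHom.eqLocus ((MulAut.conj w).toMonoidHom.comp B.i)
        ((MulAut.conj t).toMonoidHom.comp B.i) := by
      unfold Wx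
      rw [Subgroup.closure_le]
      rintro _ ⟨s, hs, rfl⟩
      show w * B.i (s.2.1 * (x ^ s.2.2)⁻¹) * w⁻¹ = t * B.i (s.2.1 * (x ^ s.2.2)⁻¹) * t⁻¹
      rw [ht, hσ.2 s hs]
      exact hw s hs
    apply mem_of_conj
    intro v hv
    have h1 : w * B.i v * w⁻¹ = t * B.i v * t⁻¹ := hle hv
    have h2 : t⁻¹ * w * B.i v * (t⁻¹ * w)⁻¹ = t⁻¹ * (w * B.i v * w⁻¹) * t := by group
    rw [h2, h1]
    group
  · intro hw s hs
    have hv : s.2.1 * (x ^ s.2.2)⁻¹ ∈ Wx L x := Subgroup.subset_closure ⟨s, hs, rfl⟩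
    have h1 := conj_of_mem B hw hv
    have h2 : w * B.i (s.2.1 * (x ^ s.2.2)⁻¹) * w⁻¹ =
        t * (t⁻¹ * w * B.i (s.2.1 * (x ^ s.2.2)⁻¹) * (t⁻¹ * w)⁻¹) * t⁻¹ := by group
    rw [h2, h1, ht, hσ.2 s hs]

/-- the value for `w` -/
theorem gW_eq (hχ : χ ∈ Ch B (p1 L)) (hσ : σ ∈ Sx E₀ L x)
    (ht : ∀ v, t * B.i v * t⁻¹ = B.i (σ v)) (W' : Subgroup V₀) {w : G} (hw : w ∈ TX B L x) :
    gW B W' x χ w = gW B W' x χ t := by
  unfold gW
  apply finsum_congr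
  intro s
  have hc := (TX_iff hσ ht w).1 hw
  have htm : t ∈ TX B L x := (TX_iff hσ ht t).2 (by rw [inv_mul_cancel]; exact Subgroup.one_mem _)
  have h1 : w * t⁻¹ ∈ B.C (p1 L) := by
    rw [TX_C htm]
    have e : t⁻¹ * (w * t⁻¹) * t = t⁻¹ * w := by group
    rw [e]
    exact hc
  have h2 : w * (B.i x * s) * w⁻¹ = (w * t⁻¹) * (t * (B.i x * s) * t⁻¹) * (w * t⁻¹)⁻¹ := by group
  rw [h2, ch_conj hχ h1]

/-- the value for `t` -/
theorem gW_t (cjd : CjdStmt) [Fact ℓ.Prime] (hM : (ℓ : integralClosure ℤ ℂ) ∈ M) (hℓ : ℓ ≠ 2)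
    [Finite V₀] (hF : Fq ℓ V₀ E₀) (hB : Sb ℓ M E₀ B) (hσ : σ ∈ Sx E₀ L x)
    (htT : t ∈ Tg B.i.range B.g) (ht : ∀ v, t * B.i v * t⁻¹ = B.i (σ v)) :
    gW B (p2 L ⊔ Subgroup.zpowers x) x χ t =
      ∑ᶠ s, bh B (p1 L ⊔ Subgroup.zpowers (σ x)) s * χ (B.i (σ x) * s) := by
  unfold gW
  rw [← finsum_comp_equiv (MulAut.conj t).symm.toEquiv]
  apply finsum_congr
  intro y
  have e1 : (MulAut.conj t).symm.toEquiv y = t⁻¹ * y * t := rfl
  have h1 := (cjd ℓ M hM hℓ V₀ G E₀ hF B hB σ hσ.1 t htT ht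
    (p2 L ⊔ Subgroup.zpowers x)).2.2.2.1 (t⁻¹ * y * t)
  have e2 : t * (t⁻¹ * y * t) * t⁻¹ = y := by group
  rw [e2, Sx_map2 hσ] at h1
  rw [e1, ← h1]
  congr 2
  rw [← ht x]
  group

/-- the sum over the `w` -/
theorem sum_TX (hSmg : T3.SmgStmt) (fud : FudStmt) (cjd : CjdStmt) [Fact ℓ.Prime]
    (hM : (ℓ : integralClosure ℤ ℂ) ∈ M) (hℓ : ℓ ≠ 2) [Finite V₀] (hF : Fq ℓ V₀ E₀)
    (hB : Sb ℓ M E₀ B) (hχ : χ ∈ Ch B (p1 L)) :
    ∑ᶠ w ∈ TX B L x, gW B (p2 L ⊔ Subgroup.zpowers x) x χ w =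
      (Nat.card (B.C (p1 L)) : ℂ) / Nat.card (St E₀ (p1 L)) *
        ∑ᶠ σ ∈ Sx E₀ L x, ∑ᶠ s, bh B (p1 L ⊔ Subgroup.zpowers (σ x)) s * χ (B.i (σ x) * s) := by
  classical
  obtain ⟨T, hT⟩ : ∃ T, T = ∑ᶠ w ∈ TX B L x, gW B (p2 L ⊔ Subgroup.zpowers x) x χ w := ⟨_, rfl⟩
  obtain ⟨R, hR⟩ : ∃ R : MulAut V₀ → ℂ, R = fun σ =>
    ∑ᶠ s, bh B (p1 L ⊔ Subgroup.zpowers (σ x)) s * χ (B.i (σ x) * s) := ⟨_, rfl⟩
  have hC0 : (Nat.card (B.C (p1 L)) : ℂ) ≠ 0 := by exact_mod_cast Nat.card_pos.ne'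
  have hfin : Finite (MulAut V₀) := inferInstance
  have hS0 : (Nat.card (St E₀ (p1 L)) : ℂ) ≠ 0 := by exact_mod_cast Nat.card_pos.ne'
  have hval : ∀ σ ∈ Sx E₀ L x, T = (Nat.card (B.C (p1 L)) : ℂ) * R σ := by
    intro σ hσ
    obtain ⟨t, htT, ht⟩ := hB.sur σ hσ.1
    have h1 : ∀ w ∈ TX B L x, gW B (p2 L ⊔ Subgroup.zpowers x) x χ w = R σ := by
      intro w hw
      rw [gW_eq hχ hσ ht _ hw, gW_t cjd hM hℓ hF hB hσ htT ht, hR]
    rw [hT, finsum_mem_congr rfl h1, finsum_mem_eq_finite_toFinset_sum _ (Set.toFinite _),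
      Finset.sum_const, nsmul_eq_mul, ← Set.ncard_eq_toFinset_card]
    congr 2
    have h2 := (cjd ℓ M hM hℓ V₀ G E₀ hF B hB σ hσ.1 t htT ht (Wx L x)).2.2.1
    rw [Sx_map hσ] at h2
    rw [h2, ← Nat.card_coe_set_eq]
    exact Nat.card_congr
      { toFun := fun w => ⟨t⁻¹ * w.1, (TX_iff hσ ht w.1).1 w.2⟩
        invFun := fun c => ⟨t * c.1, (TX_iff hσ ht _).2 (by rw [inv_mul_cancel_left]; exact c.2)⟩
        left_inv := fun w => Subtype.ext (mul_inv_cancel_left _ _)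
        right_inv := fun c => Subtype.ext (inv_mul_cancel_left _ _) }
  rw [← hT]
  change T = _ * ∑ᶠ σ ∈ Sx E₀ L x, (fun σ : MulAut V₀ =>
    ∑ᶠ s, bh B (p1 L ⊔ Subgroup.zpowers (σ x)) s * χ (B.i (σ x) * s)) σ
  rw [← hR]
  by_cases hne : (Sx E₀ L x).Nonempty
  · have h1 : ∀ σ ∈ Sx E₀ L x, R σ = T / Nat.card (B.C (p1 L)) := by
      intro σ hσ
      rw [hval σ hσ, mul_div_cancel_left₀ _ hC0]
    rw [finsum_mem_congr rfl h1, finsum_mem_eq_finite_toFinset_sum _ (Set.toFinite _),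
      Finset.sum_const, nsmul_eq_mul, ← Set.ncard_eq_toFinset_card, Sx_card hne]
    field_simp
  · have h1 : Sx E₀ L x = ∅ := Set.not_nonempty_iff_eq_empty.1 hne
    rw [h1, finsum_mem_empty, mul_zero, hT]
    apply finsum_mem_eq_zero_of_forall_eq_zero
    intro w hw
    by_contra h
    exact hne (gW_ne hSmg fud hM hF hB hw hχ h)

end blk

end Pool.Agent.PP.SD.H30
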